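import Mathlib

set_option autoImplicit false

/-!
Let `I` be a nondegenerate interval. The set of real-valued smooth functions on `I` whose Taylor
series has radius of convergence `0` at every point of `I` is maximal lineable in the real vector
space of all smooth functions on `I`.

The functions are `∑ₖ t^k bₖ cos (λₖ x)`, `1/2 < t < 1`, where `bₖ = Bₖ / λₖ^(2k)` and
`λₖ = 4^k Bₖ` and where `Bₖ` grows very rapidly. In every linear combination the `k`-th term
dominates all others in the derivative of order `2k` or in the derivative of order `2k+1`, because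
`cos² + sin² = 1`.
-/

open Filter Topology Set Finset

namespace Pool.Agent.Results.MP_1dc069_an.MaximalLineable

/-! ### Definitions -/

/-- Extension of a function on `I` to the real line by `0` (only its values on `I` matter). -/
noncomputable def ext {I : Set ℝ} (f : I → ℝ) : ℝ → ℝ :=
  fun x => open Classical in if h : x ∈ I then f ⟨x, h⟩ else 0

/-- `f : I → ℝ` is infinitely differentiable (one-sided derivatives at the end points of `I` that
belong to `I`). -/
def IsSmooth {I : Set ℝ} (f : I → ℝ) : Prop := ContDiffOn ℝ (⊤ : ℕ∞) (ext f) I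

lemma IsSmooth.add {I : Set ℝ} {f g : I → ℝ} (hf : IsSmooth f) (hg : IsSmooth g) :
    IsSmooth (f + g) := by
  change ContDiffOn ℝ (⊤ : ℕ∞) (ext (f + g)) I
  refine (ContDiffOn.add hf hg).congr fun x hx => ?_
  simp [ext, hx]

lemma isSmooth_zero {I : Set ℝ} : IsSmooth (0 : I → ℝ) := by
  change ContDiffOn ℝ (⊤ : ℕ∞) (ext 0) I
  refine (contDiffOn_const (c := (0 : ℝ))).congr fun x hx => ?_
  simp [ext]

lemma IsSmooth.smul {I : Set ℝ} (a : ℝ) {f : I → ℝ} (hf : IsSmooth f) : IsSmooth (a • f) := by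
  change ContDiffOn ℝ (⊤ : ℕ∞) (ext (a • f)) I
  refine (ContDiffOn.const_smul a hf).congr fun x hx => ?_
  simp [ext, hx]

/-- The real vector space `C^∞(I)` of infinitely differentiable functions `I → ℝ`. -/
def CInf (I : Set ℝ) : Submodule ℝ (I → ℝ) where
  carrier := {f | IsSmooth f}
  add_mem' hf hg := IsSmooth.add hf hg
  zero_mem' := isSmooth_zero
  smul_mem' a _ hf := IsSmooth.smul a hf

/-- The radius of convergence `ρ(f, x) ∈ [0, ∞]` of the Taylor series of `f` at `x`, that is of
`∑ₙ f⁽ⁿ⁾(x) (t - x)^n / n!`. -/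
noncomputable def rho {I : Set ℝ} (f : I → ℝ) (x : I) : ENNReal :=
  (FormalMultilinearSeries.ofScalars ℝ
    (fun n : ℕ => iteratedDerivWithin n (ext f) I x / (n.factorial : ℝ))).radius

/-- The set `PS(I)` of all smooth functions on `I` whose Taylor series has radius of convergence
zero at every point of `I`. -/
def PS (I : Set ℝ) : Set (I → ℝ) := {f | IsSmooth f ∧ ∀ x : I, rho f x = 0}

/-- A subset `A` of a subspace `X` of a real vector space `V` is maximal lineable in `X` if
`A ∪ {0}` contains a vector subspace `M` with `dim M = dim X` (algebraic dimensions). -/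
def MaximalLineable {V : Type} [AddCommGroup V] [Module ℝ V] (X : Submodule ℝ V) (A : Set V) :
    Prop :=
  ∃ M : Submodule ℝ V, M ≤ X ∧ (M : Set V) ⊆ A ∪ {0} ∧ Module.rank ℝ M = Module.rank ℝ X

/-! ### The sequences -/

/-- the rapidly growing sequence -/
noncomputable def B : ℕ → ℝ
  | n => 4 ^ n * ((∑ j : Fin n, B j * (4 ^ (j : ℕ) * B j) ^ (2 * n + 1))
      + ((2 * n + 1).factorial * (n : ℝ) ^ (2 * n + 1)) + 1)
decreasing_by exact j.2

/-- the frequencies -/
noncomputable def lam (k : ℕ) : ℝ := 4 ^ k * B k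

/-- the part of `B k` which comes from the preceding terms -/
noncomputable def D (k : ℕ) : ℝ := ∑ j ∈ range k, B j * lam j ^ (2 * k + 1)

/-- the prescribed growth -/
noncomputable def E (k : ℕ) : ℝ := (2 * k + 1).factorial * (k : ℝ) ^ (2 * k + 1)

lemma B_eq (k : ℕ) : B k = 4 ^ k * (D k + E k + 1) := by
  rw [B]
  unfold D E lam
  rw [Finset.sum_range]

lemma one_le_B (k : ℕ) : 1 ≤ B k := by
  induction k using Nat.strong_induction_on with
  | _ k ih =>
    rw [B_eq]
    have h1 : 0 ≤ D k := by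
      unfold D
      refine Finset.sum_nonneg fun j hj => ?_
      have := ih j (Finset.mem_range.mp hj)
      have h2 : 0 ≤ lam j := by unfold lam; positivity
      positivity
    have h2 : 0 ≤ E k := by unfold E; positivity
    have h3 : (1 : ℝ) ≤ 4 ^ k := one_le_pow₀ (by norm_num)
    nlinarith

lemma B_pos (k : ℕ) : 0 < B k := lt_of_lt_of_le one_pos (one_le_B k)

lemma one_le_lam (k : ℕ) : 1 ≤ lam k := by
  unfold lam
  have h3 : (1 : ℝ) ≤ 4 ^ k := one_le_pow₀ (by norm_num)
  have := one_le_B k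
  nlinarith

lemma lam_pos (k : ℕ) : 0 < lam k := lt_of_lt_of_le one_pos (one_le_lam k)

lemma D_nonneg (k : ℕ) : 0 ≤ D k :=
  Finset.sum_nonneg fun j _ => mul_nonneg (B_pos j).le (pow_nonneg (lam_pos j).le _)

lemma E_nonneg (k : ℕ) : 0 ≤ E k := by unfold E; positivity

/-- the coefficients -/
noncomputable def b (k : ℕ) : ℝ := B k / lam k ^ (2 * k)

lemma b_pos (k : ℕ) : 0 < b k := div_pos (B_pos k) (pow_pos (lam_pos k) _)

/-- sup norm of the `n`-th derivative of `bₖ cos (λₖ x)` -/
noncomputable def v (n k : ℕ) : ℝ := b k * lam k ^ n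

lemma v_nonneg (n k : ℕ) : 0 ≤ v n k := mul_nonneg (b_pos k).le (pow_nonneg (lam_pos k).le _)

lemma v_small {n k : ℕ} (h : n + 1 ≤ 2 * k) : v n k ≤ (1 / 4) ^ k := by
  unfold v b
  have h1 : lam k ^ n * lam k ≤ lam k ^ (2 * k) := by
    rw [← pow_succ]
    exact pow_le_pow_right₀ (one_le_lam k) h
  have h2 : B k / lam k = (1 / 4) ^ k := by
    unfold lam
    have := (B_pos k).ne'
    rw [one_div, inv_pow]
    field_simp
  rw [← h2, div_mul_eq_mul_div, div_le_div_iff₀ (pow_pos (lam_pos k) _) (lam_pos k)]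
  calc B k * lam k ^ n * lam k = B k * (lam k ^ n * lam k) := by ring
    _ ≤ B k * lam k ^ (2 * k) := mul_le_mul_of_nonneg_left h1 (B_pos k).le

lemma v_big {n k j : ℕ} (h : n ≤ 2 * k + 1) : v n j ≤ B j * lam j ^ (2 * k + 1) := by
  unfold v b
  have h1 : lam j ^ n ≤ lam j ^ (2 * k + 1) := pow_le_pow_right₀ (one_le_lam j) h
  have h2 : B j / lam j ^ (2 * j) ≤ B j :=
    div_le_self (B_pos j).le (one_le_pow₀ (one_le_lam j))
  exact mul_le_mul h2 h1 (pow_nonneg (lam_pos j).le _) (B_pos j).le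

lemma summable_v (n : ℕ) : Summable (v n) := by
  rw [← summable_nat_add_iff (n + 1)]
  refine Summable.of_nonneg_of_le (fun k => v_nonneg n _) (fun k => v_small (by omega)) ?_
  exact (summable_nat_add_iff (n + 1)).mpr (summable_geometric_of_lt_one (by norm_num) (by norm_num))

/-! ### The functions -/

/-- the terms of the series -/
noncomputable def term (γ : ℕ → ℝ) (k : ℕ) (x : ℝ) : ℝ := γ k * b k * Real.cos (lam k * x)

/-- the functions -/
noncomputable def F (γ : ℕ → ℝ) (x : ℝ) : ℝ := ∑' k, term γ k x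

lemma contDiff_term (γ : ℕ → ℝ) (k : ℕ) : ContDiff ℝ (⊤ : ℕ∞) (term γ k) := by
  unfold term
  fun_prop

lemma iteratedDeriv_term (γ : ℕ → ℝ) (n k : ℕ) (x : ℝ) :
    iteratedDeriv n (term γ k) x
      = γ k * b k * (lam k ^ n * iteratedDeriv n Real.cos (lam k * x)) := by
  have h1 : ContDiff ℝ n (fun x : ℝ => Real.cos (lam k * x)) := by fun_prop
  change iteratedDeriv n (fun x => γ k * b k * Real.cos (lam k * x)) x = _
  rw [iteratedDeriv_const_mul _ h1.contDiffAt]
  rw [iteratedDeriv_comp_const_mul (f := Real.cos) Real.contDiff_cos (lam k)]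

lemma norm_iteratedDeriv_term_le {γ : ℕ → ℝ} {C : ℝ} (hγ : ∀ k, |γ k| ≤ C) (n k : ℕ) (x : ℝ) :
    |iteratedDeriv n (term γ k) x| ≤ C * v n k := by
  rw [iteratedDeriv_term, abs_mul, abs_mul, abs_mul, abs_of_pos (b_pos k),
    abs_of_nonneg (pow_nonneg (lam_pos k).le n)]
  have h1 := Real.abs_iteratedDeriv_cos_le_one n (lam k * x)
  have h2 : lam k ^ n * |iteratedDeriv n Real.cos (lam k * x)| ≤ lam k ^ n :=
    mul_le_of_le_one_right (pow_nonneg (lam_pos k).le n) h1
  have h0 : 0 ≤ C := (abs_nonneg _).trans (hγ 0)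
  calc |γ k| * b k * (lam k ^ n * |iteratedDeriv n Real.cos (lam k * x)|)
      ≤ C * b k * lam k ^ n :=
        mul_le_mul (mul_le_mul_of_nonneg_right (hγ k) (b_pos k).le) h2
          (mul_nonneg (pow_nonneg (lam_pos k).le n) (abs_nonneg _))
          (mul_nonneg h0 (b_pos k).le)
    _ = C * v n k := by unfold v; ring

section bounded

variable {γ : ℕ → ℝ} {C : ℝ} (hγ : ∀ k, |γ k| ≤ C)

include hγ

lemma bound (n k : ℕ) (x : ℝ) : ‖iteratedFDeriv ℝ n (term γ k) x‖ ≤ C * v n k := by
  rw [norm_iteratedFDeriv_eq_norm_iteratedDeriv, Real.norm_eq_abs]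
  exact norm_iteratedDeriv_term_le hγ n k x

lemma contDiff_F : ContDiff ℝ (⊤ : ℕ∞) (F γ) :=
  contDiff_tsum (contDiff_term γ) (fun n _ => (summable_v n).mul_left C)
    (fun n k x _ => bound hγ n k x)

lemma iteratedDeriv_F (n : ℕ) (x : ℝ) :
    iteratedDeriv n (F γ) x = ∑' k, iteratedDeriv n (term γ k) x := by
  have h1 := iteratedFDeriv_tsum_apply (N := (⊤ : ℕ∞)) (contDiff_term γ)
    (fun n _ => (summable_v n).mul_left C) (fun n k x _ => bound hγ n k x)
    (k := n) (by exact_mod_cast le_top) x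
  rw [iteratedDeriv_eq_iteratedFDeriv]
  change (iteratedFDeriv ℝ n (fun y => ∑' k, term γ k y) x) (fun _ => 1) = _
  rw [h1]
  have hs : Summable fun k => iteratedFDeriv ℝ n (term γ k) x :=
    Summable.of_norm_bounded ((summable_v n).mul_left C) (fun k => bound hγ n k x)
  rw [ContinuousMultilinearMap.tsum_eval hs]
  rfl

lemma summable_deriv (n : ℕ) (x : ℝ) : Summable fun k => iteratedDeriv n (term γ k) x :=
  Summable.of_norm_bounded ((summable_v n).mul_left C)
    (fun k => by rw [Real.norm_eq_abs]; exact norm_iteratedDeriv_term_le hγ n k x)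

lemma lower (n k : ℕ) (h1 : n ≤ 2 * k + 1) (x : ℝ) :
    |iteratedDeriv n (term γ k) x| - C * (D k + 1) ≤ |iteratedDeriv n (F γ) x| := by
  have h0 : 0 ≤ C := (abs_nonneg _).trans (hγ 0)
  rw [iteratedDeriv_F hγ, ← (summable_deriv hγ n x).sum_add_tsum_nat_add (k + 1),
    Finset.sum_range_succ]
  have e1 : |∑ j ∈ range k, iteratedDeriv n (term γ j) x| ≤ C * D k := by
    refine (Finset.abs_sum_le_sum_abs _ _).trans ?_
    unfold D
    rw [Finset.mul_sum]
    refine Finset.sum_le_sum fun j _ => ?_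
    exact (norm_iteratedDeriv_term_le hγ n j x).trans (mul_le_mul_of_nonneg_left (v_big h1) h0)
  have e2 : |∑' j, iteratedDeriv n (term γ (j + (k + 1))) x| ≤ C * 1 := by
    have hsg : Summable fun j : ℕ => C * (1 / 4 : ℝ) ^ (j + (k + 1)) :=
      ((summable_nat_add_iff (k + 1)).mpr
        (summable_geometric_of_lt_one (by norm_num) (by norm_num))).mul_left C
    have e3 : ‖∑' j, iteratedDeriv n (term γ (j + (k + 1))) x‖
        ≤ ∑' j : ℕ, C * (1 / 4 : ℝ) ^ (j + (k + 1)) := by
      refine tsum_of_norm_bounded hsg.hasSum fun j => ?_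
      rw [Real.norm_eq_abs]
      exact (norm_iteratedDeriv_term_le hγ n _ x).trans
        (mul_le_mul_of_nonneg_left (v_small (by omega)) h0)
    rw [Real.norm_eq_abs] at e3
    refine e3.trans ?_
    rw [tsum_mul_left]
    refine mul_le_mul_of_nonneg_left ?_ h0
    have e4 : (fun j : ℕ => (1 / 4 : ℝ) ^ (j + (k + 1)))
        = fun j => (1 / 4 : ℝ) ^ j * (1 / 4) ^ (k + 1) := by
      funext j; rw [pow_add]
    rw [e4, tsum_mul_right, tsum_geometric_of_lt_one (by norm_num) (by norm_num)]
    have e5 : (1 / 4 : ℝ) ^ (k + 1) ≤ 1 / 4 := by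
      rw [pow_succ]
      have : (1 / 4 : ℝ) ^ k ≤ 1 := pow_le_one₀ (by norm_num) (by norm_num)
      linarith
    have e6 : (1 - 1 / 4 : ℝ)⁻¹ = 4 / 3 := by norm_num
    rw [e6]
    linarith
  set P := ∑ j ∈ range k, iteratedDeriv n (term γ j) x
  set Q := iteratedDeriv n (term γ k) x
  set R := ∑' j, iteratedDeriv n (term γ (j + (k + 1))) x
  have e7 : |Q| ≤ |P + Q + R| + |P| + |R| := by
    have : Q = (P + Q + R) - P - R := by ring
    calc |Q| = |(P + Q + R) - P - R| := by rw [← this]
      _ ≤ |(P + Q + R) - P| + |R| := abs_sub _ _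
      _ ≤ |P + Q + R| + |P| + |R| := by
          have := abs_sub (P + Q + R) P
          linarith
  linarith

lemma main_estimate (ε : ℝ) (k : ℕ) (hk : 1 ≤ k) (hγk : ε * (1 / 2) ^ k ≤ |γ k|)
    (hε : C + 1 ≤ ε / 2 * 2 ^ k) (x : ℝ) :
    ∃ n, 2 * k ≤ n ∧ (n.factorial : ℝ) * (k : ℝ) ^ n ≤ |iteratedDeriv n (F γ) x| := by
  have h0 : 0 ≤ C := (abs_nonneg _).trans (hγ 0)
  have hk' : (1 : ℝ) ≤ k := by exact_mod_cast hk
  have hbl : b k * lam k ^ (2 * k) = B k := by
    unfold b
    rw [div_mul_cancel₀ _ (pow_pos (lam_pos k) _).ne']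
  -- the main term
  have hmain : ∃ n, 2 * k ≤ n ∧ n ≤ 2 * k + 1 ∧ |γ k| * B k * (1 / 2)
      ≤ |iteratedDeriv n (term γ k) x| := by
    have hcs := Real.sin_sq_add_cos_sq (lam k * x)
    by_cases hc : 1 / 2 ≤ |Real.cos (lam k * x)|
    · refine ⟨2 * k, le_rfl, by omega, ?_⟩
      rw [iteratedDeriv_term, Real.iteratedDeriv_even_cos]
      simp only [Pi.mul_apply, Pi.pow_apply, Pi.neg_apply, Pi.one_apply]
      rw [abs_mul, abs_mul, abs_mul, abs_mul, abs_pow (-1 : ℝ), abs_neg, abs_one, one_pow, one_mul,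
        abs_of_pos (b_pos k), abs_of_nonneg (pow_nonneg (lam_pos k).le _)]
      have : |γ k| * b k * (lam k ^ (2 * k) * |Real.cos (lam k * x)|)
          = |γ k| * (b k * lam k ^ (2 * k)) * |Real.cos (lam k * x)| := by ring
      rw [this, hbl]
      exact mul_le_mul_of_nonneg_left hc (mul_nonneg (abs_nonneg _) (B_pos k).le)
    · have hs : 1 / 2 ≤ |Real.sin (lam k * x)| := by
        rw [not_le] at hc
        by_contra hs
        rw [not_le] at hs
        have h1 := sq_abs (Real.sin (lam k * x))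
        have h2 := sq_abs (Real.cos (lam k * x))
        have h3 := abs_nonneg (Real.sin (lam k * x))
        have h4 := abs_nonneg (Real.cos (lam k * x))
        nlinarith
      refine ⟨2 * k + 1, by omega, le_rfl, ?_⟩
      rw [iteratedDeriv_term, Real.iteratedDeriv_odd_cos]
      simp only [Pi.mul_apply, Pi.pow_apply, Pi.neg_apply, Pi.one_apply]
      rw [abs_mul, abs_mul, abs_mul, abs_mul, abs_pow (-1 : ℝ), abs_neg, abs_one, one_pow, one_mul,
        abs_of_pos (b_pos k), abs_of_nonneg (pow_nonneg (lam_pos k).le _)]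
      have : |γ k| * b k * (lam k ^ (2 * k + 1) * |Real.sin (lam k * x)|)
          = |γ k| * (b k * lam k ^ (2 * k)) * (lam k * |Real.sin (lam k * x)|) := by ring
      rw [this, hbl]
      refine mul_le_mul_of_nonneg_left ?_ (mul_nonneg (abs_nonneg _) (B_pos k).le)
      have := one_le_lam k
      nlinarith
  obtain ⟨n, hn1, hn2, hn3⟩ := hmain
  refine ⟨n, hn1, ?_⟩
  have hlow := lower hγ n k hn2 x
  have e1 : (C + 1) * (D k + E k + 1) ≤ |γ k| * B k * (1 / 2) := by
    have hp : 0 ≤ D k + E k + 1 := by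
      have := D_nonneg k
      have := E_nonneg k
      linarith
    calc (C + 1) * (D k + E k + 1) ≤ ε / 2 * 2 ^ k * (D k + E k + 1) :=
          mul_le_mul_of_nonneg_right hε hp
      _ = ε * (1 / 2) ^ k * (4 ^ k * (D k + E k + 1)) * (1 / 2) := by
          have : (1 / 2 : ℝ) ^ k * 4 ^ k = 2 ^ k := by
            rw [← mul_pow]; norm_num
          rw [← this]; ring
      _ = ε * (1 / 2) ^ k * B k * (1 / 2) := by rw [← B_eq]
      _ ≤ |γ k| * B k * (1 / 2) := by
          have := mul_le_mul_of_nonneg_right hγk (B_pos k).le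
          linarith
  have e2 : (n.factorial : ℝ) * (k : ℝ) ^ n ≤ E k := by
    unfold E
    have h1 : (n.factorial : ℝ) ≤ (2 * k + 1).factorial := by
      exact_mod_cast Nat.factorial_le hn2
    have h2 : (k : ℝ) ^ n ≤ (k : ℝ) ^ (2 * k + 1) := pow_le_pow_right₀ hk' hn2
    exact mul_le_mul h1 h2 (by positivity) (by positivity)
  have := D_nonneg k
  have := E_nonneg k
  nlinarith

end bounded

/-! ### The radius of convergence -/

lemma uniqueDiff {I : Set ℝ} (hI : I.OrdConnected) (hI2 : I.Nontrivial) : UniqueDiffOn ℝ I := by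
  refine uniqueDiffOn_convex hI.convex ?_
  obtain ⟨x, hx, y, hy, hxy⟩ := hI2
  rcases lt_or_gt_of_ne hxy with h | h
  · have : Ioo x y ⊆ interior I :=
      interior_maximal (Ioo_subset_Icc_self.trans (hI.out hx hy)) isOpen_Ioo
    exact (Set.nonempty_Ioo.mpr h).mono this
  · have : Ioo y x ⊆ interior I :=
      interior_maximal (Ioo_subset_Icc_self.trans (hI.out hy hx)) isOpen_Ioo
    exact (Set.nonempty_Ioo.mpr h).mono this

lemma ext_eqOn {I : Set ℝ} (G : ℝ → ℝ) : EqOn (ext (fun x : I => G x)) G I := by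
  intro x hx
  simp [ext, hx]

lemma rho_eq_zero {I : Set ℝ} (hI : I.OrdConnected) (hI2 : I.Nontrivial) {γ : ℕ → ℝ} {C : ℝ}
    (hγ : ∀ k, |γ k| ≤ C) (ε : ℝ) (hε : 0 < ε)
    (hev : ∀ᶠ k in atTop, ε * (1 / 2) ^ k ≤ |γ k|) (x : I) :
    rho (fun x : I => F γ x) x = 0 := by
  have hd : ∀ n, iteratedDerivWithin n (ext (fun x : I => F γ x)) I x
      = iteratedDeriv n (F γ) x := by
    intro n
    rw [iteratedDerivWithin_congr (ext_eqOn (F γ)) x.2]
    exact iteratedDerivWithin_eq_iteratedDeriv (uniqueDiff hI hI2)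
      ((contDiff_F hγ).contDiffAt.of_le (by exact_mod_cast le_top)) x.2
  unfold rho
  by_contra hne
  obtain ⟨r, hr0, hr⟩ := ENNReal.lt_iff_exists_nnreal_btwn.mp (pos_iff_ne_zero.mpr hne)
  have hr0' : 0 < (r : ℝ) := by exact_mod_cast hr0
  obtain ⟨M, hM, hb⟩ := FormalMultilinearSeries.norm_mul_pow_le_of_lt_radius _ hr
  -- choose `k`
  have t1 : ∀ᶠ k : ℕ in atTop, C + 1 ≤ ε / 2 * 2 ^ k := by
    have : Tendsto (fun k : ℕ => ε / 2 * (2 : ℝ) ^ k) atTop atTop :=
      (tendsto_pow_atTop_atTop_of_one_lt (by norm_num)).const_mul_atTop (by positivity)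
    exact this.eventually_ge_atTop _
  have t2 : ∀ᶠ k : ℕ in atTop, M < 2 ^ (2 * k) := by
    have : Tendsto (fun k : ℕ => ((2 : ℝ) ^ 2) ^ k) atTop atTop :=
      tendsto_pow_atTop_atTop_of_one_lt (by norm_num)
    have := this.eventually_gt_atTop M
    filter_upwards [this] with k hk
    rwa [pow_mul]
  have t3 : ∀ᶠ k : ℕ in atTop, 2 / (r : ℝ) ≤ k :=
    (tendsto_natCast_atTop_atTop (R := ℝ)).eventually_ge_atTop _
  obtain ⟨k, h1, h2, h3, h4, h5⟩ :=
    (hev.and (t1.and (t2.and (t3.and (eventually_ge_atTop 1))))).exists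
  obtain ⟨n, hn, hn2⟩ := main_estimate hγ ε k h5 h1 h2 x
  have h6 := hb n
  rw [FormalMultilinearSeries.ofScalars_norm, hd n, Real.norm_eq_abs, abs_div,
    abs_of_nonneg (Nat.cast_nonneg (α := ℝ) n.factorial)] at h6
  have hfac : (0 : ℝ) < n.factorial := by exact_mod_cast n.factorial_pos
  have h7 : (k : ℝ) ^ n ≤ |iteratedDeriv n (F γ) x| / n.factorial := by
    rw [le_div_iff₀ hfac]
    linarith
  have h8 : (2 : ℝ) ≤ k * r := by rwa [div_le_iff₀ hr0'] at h4
  have h9 : (2 : ℝ) ^ n ≤ (k : ℝ) ^ n * (r : ℝ) ^ n := by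
    rw [← mul_pow]
    exact pow_le_pow_left₀ (by norm_num) h8 n
  have h10 : (2 : ℝ) ^ (2 * k) ≤ 2 ^ n := pow_le_pow_right₀ (by norm_num) hn
  have h11 : (k : ℝ) ^ n * (r : ℝ) ^ n ≤ |iteratedDeriv n (F γ) x| / n.factorial * (r : ℝ) ^ n :=
    mul_le_mul_of_nonneg_right h7 (by positivity)
  linarith

/-! ### The coefficient sequences -/

/-- the index set of the family of functions -/
abbrev J : Type := Set.Ioo (1 / 2 : ℝ) 1

/-- the coefficient sequence of a linear combination -/
noncomputable def gam (c : J →₀ ℝ) (k : ℕ) : ℝ := c.sum fun t a => a * (t : ℝ) ^ k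

lemma gam_bound (c : J →₀ ℝ) (k : ℕ) : |gam c k| ≤ c.sum fun _ a => |a| := by
  unfold gam Finsupp.sum
  refine (Finset.abs_sum_le_sum_abs _ _).trans (Finset.sum_le_sum fun t _ => ?_)
  rw [abs_mul]
  have h1 : 0 ≤ (t : ℝ) := by have := t.2.1; linarith
  rw [abs_of_nonneg (pow_nonneg h1 k)]
  exact mul_le_of_le_one_right (abs_nonneg _) (pow_le_one₀ h1 t.2.2.le)

lemma gam_lower (c : J →₀ ℝ) (hc : c ≠ 0) :
    ∃ ε > 0, ∀ᶠ k in atTop, ε * (1 / 2) ^ k ≤ |gam c k| := by
  have hne : c.support.Nonempty := Finsupp.support_nonempty_iff.mpr hc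
  set t0 := c.support.max' hne with ht0
  have hmem : t0 ∈ c.support := Finset.max'_mem _ _
  have hct : c t0 ≠ 0 := Finsupp.mem_support_iff.mp hmem
  have ht0pos : (0 : ℝ) < t0 := by have := t0.2.1; linarith
  have hlim : Tendsto (fun k : ℕ => gam c k / (t0 : ℝ) ^ k) atTop (𝓝 (c t0)) := by
    have h1 : ∀ t ∈ c.support, Tendsto (fun k : ℕ => c t * ((t : ℝ) / t0) ^ k) atTop
        (𝓝 (if t = t0 then c t0 else 0)) := by
      intro t ht
      split_ifs with h
      · rw [h]
        simp only [div_self ht0pos.ne', one_pow, mul_one]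
        exact tendsto_const_nhds
      · have hlt : t < t0 := lt_of_le_of_ne (Finset.le_max' _ _ ht) h
        have hlt' : (t : ℝ) < t0 := hlt
        have h2 : Tendsto (fun k : ℕ => ((t : ℝ) / t0) ^ k) atTop (𝓝 0) := by
          have ht : (0 : ℝ) < t := by have := t.2.1; linarith
          exact tendsto_pow_atTop_nhds_zero_of_lt_one (by positivity)
            ((div_lt_one ht0pos).mpr hlt')
        simpa using h2.const_mul (c t)
    have h2 := tendsto_finsetSum c.support h1
    have h3 : (∑ t ∈ c.support, if t = t0 then c t0 else 0) = c t0 := by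
      rw [Finset.sum_ite_eq' c.support t0 (fun _ => c t0)]
      simp [hmem]
    rw [h3] at h2
    refine h2.congr fun k => ?_
    unfold gam Finsupp.sum
    rw [Finset.sum_div]
    refine Finset.sum_congr rfl fun t _ => ?_
    rw [div_pow, mul_div_assoc]
  refine ⟨|c t0| / 2, by positivity, ?_⟩
  have h4 : ∀ᶠ k : ℕ in atTop, |c t0| / 2 < |gam c k / (t0 : ℝ) ^ k| := by
    refine (hlim.abs).eventually_const_lt ?_
    have : 0 < |c t0| := abs_pos.mpr hct
    linarith
  filter_upwards [h4] with k hk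
  rw [abs_div, abs_of_pos (pow_pos ht0pos k), lt_div_iff₀ (pow_pos ht0pos k)] at hk
  refine le_trans (mul_le_mul_of_nonneg_left ?_ (by positivity)) hk.le
  exact pow_le_pow_left₀ (by norm_num) t0.2.1.le k

lemma summable_term (c : J →₀ ℝ) (x : ℝ) : Summable fun k => term (gam c) k x := by
  have := summable_deriv (gam_bound c) 0 x
  simpa using this

/-- the linear map -/
noncomputable def Phi (I : Set ℝ) : (J →₀ ℝ) →ₗ[ℝ] (I → ℝ) where
  toFun c := fun x => F (gam c) x
  map_add' c d := by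
    ext x
    change F (gam (c + d)) x = F (gam c) x + F (gam d) x
    unfold F
    rw [← (summable_term c x).tsum_add (summable_term d x)]
    refine tsum_congr fun k => ?_
    unfold term
    have : gam (c + d) k = gam c k + gam d k := by
      unfold gam
      rw [Finsupp.sum_add_index']
      · simp
      · intro a b1 b2; ring
    rw [this]; ring
  map_smul' a c := by
    ext x
    change F (gam (a • c)) x = a * F (gam c) x
    unfold F
    rw [← tsum_mul_left]
    refine tsum_congr fun k => ?_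
    unfold term
    have : gam (a • c) k = a * gam c k := by
      unfold gam
      rw [Finsupp.sum_smul_index (by simp), Finsupp.mul_sum]
      refine Finset.sum_congr rfl fun t _ => ?_
      simp only
      ring
    rw [this]; ring

lemma Phi_smooth {I : Set ℝ} (c : J →₀ ℝ) : IsSmooth (Phi I c) := by
  change ContDiffOn ℝ (⊤ : ℕ∞) (ext (fun x : I => F (gam c) x)) I
  exact (contDiff_F (gam_bound c)).contDiffOn.congr (ext_eqOn _)

lemma Phi_mem {I : Set ℝ} (hI : I.OrdConnected) (hI2 : I.Nontrivial) (c : J →₀ ℝ) (hc : c ≠ 0) :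
    Phi I c ∈ PS I := by
  obtain ⟨ε, hε, hev⟩ := gam_lower c hc
  exact ⟨Phi_smooth c, fun x => rho_eq_zero hI hI2 (gam_bound c) ε hε hev x⟩

lemma zero_not_mem {I : Set ℝ} (hI2 : I.Nontrivial) : (0 : I → ℝ) ∉ PS I := by
  intro h
  obtain ⟨x, hx⟩ := hI2.nonempty
  have h1 := h.2 ⟨x, hx⟩
  have h2 : (fun n : ℕ => iteratedDerivWithin n (ext (0 : I → ℝ)) I x / (n.factorial : ℝ))
      = 0 := by
    funext n
    have h3 : ext (0 : I → ℝ) = fun _ => 0 := by
      funext y; simp [ext]
    rw [h3]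
    simp
  have h3 : rho (0 : I → ℝ) ⟨x, hx⟩ = ⊤ := by
    unfold rho
    change (FormalMultilinearSeries.ofScalars ℝ
      (fun n : ℕ => iteratedDerivWithin n (ext (0 : I → ℝ)) I x / (n.factorial : ℝ))).radius = ⊤
    rw [h2]
    refine FormalMultilinearSeries.radius_eq_top_of_forall_image_add_eq_zero _ 0 fun n => ?_
    rw [← norm_eq_zero, FormalMultilinearSeries.ofScalars_norm]
    simp
  rw [h3] at h1
  exact ENNReal.top_ne_zero h1

lemma Phi_injective {I : Set ℝ} (hI : I.OrdConnected) (hI2 : I.Nontrivial) :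
    Function.Injective (Phi I) := by
  rw [injective_iff_map_eq_zero]
  intro c hc
  by_contra hne
  have := Phi_mem hI hI2 c hne
  rw [hc] at this
  exact zero_not_mem hI2 this

/-! ### Cardinalities -/

lemma mk_CInf_le (I : Set ℝ) : Cardinal.mk (CInf I) ≤ Cardinal.continuum := by
  obtain ⟨s, hs, hd⟩ := TopologicalSpace.exists_countable_dense I
  have hcont : ∀ f : CInf I, Continuous (f : I → ℝ) := by
    intro f
    have h1 : ContinuousOn (ext f.1) I := ContDiffOn.continuousOn f.2
    have h2 := continuousOn_iff_continuous_domRestrict.1 h1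
    refine h2.congr fun x => ?_
    simp [ext]
  have hinj : Function.Injective fun (f : CInf I) (x : s) => (f : I → ℝ) x := by
    intro f g hfg
    apply Subtype.ext
    refine Continuous.ext_on hd (hcont f) (hcont g) fun x hx => ?_
    exact congrFun hfg ⟨x, hx⟩
  refine (Cardinal.mk_le_of_injective hinj).trans ?_
  have h1 : Cardinal.mk (s → ℝ) = Cardinal.continuum ^ Cardinal.mk s := by
    rw [← Cardinal.mk_real, Cardinal.power_def]
  rw [h1]
  have h2 : Cardinal.mk s ≤ Cardinal.aleph0 := Cardinal.mk_le_aleph0_iff.mpr hs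
  calc Cardinal.continuum ^ Cardinal.mk s ≤ Cardinal.continuum ^ Cardinal.aleph0 :=
        Cardinal.power_le_power_left Cardinal.continuum_ne_zero h2
    _ = Cardinal.continuum := Cardinal.continuum_power_aleph0

/-- **Maximal lineability of the Pringsheim singular functions over the reals.** Let `I` be an
interval with more than one point. The set `PS(I)` of all smooth functions `I → ℝ` whose Taylor
series has radius of convergence `0` at every point of `I` is maximal lineable in the real vector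
space `C^∞(I)`, whose algebraic dimension is the cardinality of the continuum. -/
theorem result (I : Set ℝ) (hI : I.OrdConnected) (hI2 : I.Nontrivial) :
    MaximalLineable (CInf I) (PS I) ∧ Module.rank ℝ (CInf I) = Cardinal.continuum := by
  have hrank : Module.rank ℝ (LinearMap.range (Phi I)) = Cardinal.continuum := by
    rw [← (LinearEquiv.ofInjective (Phi I) (Phi_injective hI hI2)).rank_eq, rank_finsupp_self',
      Cardinal.mk_Ioo_real (by norm_num)]
  have hle : LinearMap.range (Phi I) ≤ CInf I := by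
    rintro f ⟨c, rfl⟩
    exact Phi_smooth c
  have hrank2 : Module.rank ℝ (CInf I) = Cardinal.continuum := by
    refine le_antisymm ((rank_le_card ℝ (CInf I)).trans (mk_CInf_le I)) ?_
    rw [← hrank]
    exact Submodule.rank_mono hle
  refine ⟨⟨LinearMap.range (Phi I), hle, ?_, hrank.trans hrank2.symm⟩, hrank2⟩
  rintro f ⟨c, rfl⟩
  by_cases hc : c = 0
  · right; rw [hc, map_zero]; rfl
  · left; exact Phi_mem hI hI2 c hc

end Pool.Agent.Results.MP_1dc069_an.MaximalLineable
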